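import Pool.Agent.L0h32.UX.Stm

/-!
# Project UZ (MP_0036f5_lc): zero-error probabilistic 1-limited automata, definitions and statements

The machine of the project UX with additional moves that restart the computation of the present bit. Every
configuration that can be reached leads to an answer, so the random computation ends with probability one.
-/

set_option autoImplicit false
set_option linter.all false

namespace Pool.Agent.L0h32.UZ

open Relation Filter Topology
open Pool.Agent.H630R2.LA (LimAut Sym Cfg Step init initTape WS lrel bitS ix nr Ann keep)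
open Pool.Agent.L0h32.UX

/-! ### Random computations -/

section random

variable {A : Type} (strict : Prop) (M : LimAut A) (G : Set M.Q) (n : ℕ)

/-- The configurations after one move. -/
def next (c : Cfg M) : Set (Cfg M) := {c' | Step strict n c c'}

/-- The computation has ended with an answer. -/
def Ended (c : Cfg M) : Prop := c.pos = n + 2 ∧ c.state ∈ M.F ∪ G

open Classical in
/-- The probability that the random computation that starts in `c` and chooses each time the next
configuration at random, with the uniform distribution on the possible ones, has ended with an answer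
after at most `T` moves. -/
noncomputable def pEnd : ℕ → Cfg M → ℝ
  | 0, c => if Ended M G n c then 1 else 0
  | T + 1, c => if Ended M G n c then 1 else
      (∑ᶠ c' ∈ next strict M n c, pEnd T c') / ((next strict M n c).ncard : ℝ)

end random

/-- The automaton `M` with the accepting states `F` and the rejecting states `G` is a zero-error (Las
Vegas) automaton: no word has both a computation that ends in `F` and one that ends in `G`, and on every word
the random computation ends in `F ∪ G` with probability one. -/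
def LasVegas {A : Type} (strict : Prop) (M : LimAut A) (G : Set M.Q) : Prop :=
  (∀ w : List A, ¬ ((∃ c, ReflTransGen (Step strict w.length) (init M w) c ∧ c.pos = w.length + 2 ∧
      c.state ∈ M.F) ∧
    (∃ c, ReflTransGen (Step strict w.length) (init M w) c ∧ c.pos = w.length + 2 ∧ c.state ∈ G))) ∧
  ∀ w : List A, Tendsto (fun T => pEnd strict M G w.length T (init M w)) atTop (𝓝 1)

/-- PRB: if every reachable configuration leads to an answer then the random computation ends with
probability one (the set of the reachable configurations is finite) -/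
def S_PRB : Prop := ∀ (A : Type) [Finite A] (strict : Prop) (M : LimAut A) (G : Set M.Q) (w : List A),
  (∀ c, ReflTransGen (Step strict w.length) (init M w) c →
    ∃ c', ReflTransGen (Step strict w.length) c c' ∧ Ended M G w.length c') →
  Tendsto (fun T => pEnd strict M G w.length T (init M w)) atTop (𝓝 1)

section defs

variable {A : Type} (h : ℕ) (rel : A → Fin (2 ^ h) → Fin (2 ^ h) → Bool) (p0 : Fin (2 ^ h))
  (facc : Fin (2 ^ h) → Bool) (K : ℕ) (W : ℕ → ℕ → Fin (2 ^ h) → Fin (2 ^ h) → ℕ)

/-- The memory and the distance from the beginning of the base block, for the states of a test. -/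
def loc : St h → Option (Mem × ℕ)
  | .rA m i => some (m, i)
  | .rB m _ i => some (m, i)
  | .rC m _ _ i => some (m, i)
  | _ => none

/-- The moves: those of the project UX and the restarts. -/
inductive TrV : St h → Sym (WS A) → St h → WS A → Bool → Prop
  | old (s s' : St h) (σ : Sym (WS A)) (b : WS A) (d : Bool)
      (ht : Tr h rel p0 facc K W s σ s' b d) : TrV s σ s' b d
  | rsH (m : Mem) (σ : Sym (WS A)) :
      TrV (.hm m) σ (.h1 (mem0 h p0 facc m.x m.fin 0)) (keep σ) true
  | rs (s : St h) (m : Mem) (i : ℕ) (σ : Sym (WS A)) (hs : loc h s = some (m, i))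
      (hi : i < EE h m.x m.fin) : TrV s σ (.rR (mem0 h p0 facc m.x m.fin 0) (i + 1)) (keep σ) true
  | rs' (s : St h) (m : Mem) (i : ℕ) (σ : Sym (WS A)) (hs : loc h s = some (m, i))
      (hi : i = EE h m.x m.fin) : TrV s σ (.hm (mem0 h p0 facc m.x m.fin 0)) (keep σ) false

/-- The machine. -/
def vM [Finite A] (N : ℕ) (hQ : Finite {s : St h // Bd h N s}) : LimAut A where
  Q := {s : St h // Bd h N s}
  W := WS A
  finQ := hQ
  finW := Pool.Agent.H630R2.LA.finite_WS A
  inp := WS.raw
  inp_inj := by
    intro a b hab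
    cases hab
    rfl
  δ := fun q σ => {x | TrV h rel p0 facc K W q.1 σ x.1.1 x.2.1 x.2.2}
  q0 := ⟨.wr (w0 h p0), bd_w0 h p0 N⟩
  F := {q | q.1 = .fin true}

/-- The rejecting states. -/
def vG [Finite A] (N : ℕ) (hQ : Finite {s : St h // Bd h N s}) :
    Set (vM h rel p0 facc K W N hQ : LimAut A).Q := {q | q.1 = .fin false}

/-- The runs on a frozen tape (`n = t + 1` is the last visited cell). -/
def RSV (τ : ℕ → Sym (WS A)) (n : ℕ) (c c' : St h × ℕ) : Prop :=
  c.2 ≤ n ∧ ∃ d, TrV h rel p0 facc K W c.1 (τ c.2) c'.1 (keep (τ c.2)) d ∧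
    (d = true → c'.2 = c.2 + 1) ∧ (d = false → c'.2 + 1 = c.2)

end defs

/-- MVV: all moves preserve the invariants (from `UX.S_MOV`, `UX.S_MV0`) -/
def S_MVV : Prop := ∀ (A : Type) (h : ℕ) (rel : A → Fin (2 ^ h) → Fin (2 ^ h) → Bool)
  (p0 : Fin (2 ^ h)) (facc : Fin (2 ^ h) → Bool) (K : ℕ) (W : ℕ → ℕ → Fin (2 ^ h) → Fin (2 ^ h) → ℕ)
  (w : List A) (t : ℕ) (τ : ℕ → Sym (WS A)), 0 < K →
  t ≤ w.length → Ann h rel p0 w τ (min (t + 1) w.length) →
  ∀ (s s' : St h) (x x' : ℕ) (b : WS A) (d : Bool), SOK h rel p0 facc K W w t s x →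
    TrV h rel p0 facc K W s (τ x) s' b d → (d = true → x' = x + 1) → (d = false → x' + 1 = x) →
    b = keep (τ x) ∧ x ≤ t + 1 ∧
      ((∃ x'', s = .ex x'' ∧ s' = .wr x'' ∧ x = t + 1 ∧ x' = t + 2 ∧ WOK h rel p0 w (t + 1) x'' ∧
        t < w.length) ∨ SOK h rel p0 facc K W w t s' x')

/-- SNV: the answers are right (from MVV, `UX.S_MV0`; like the second part of `UX.S_UNA`) -/
def S_SNV : Prop := ∀ (A : Type) [Finite A] (strict : Prop) (h : ℕ)
  (rel : A → Fin (2 ^ h) → Fin (2 ^ h) → Bool) (p0 : Fin (2 ^ h)) (facc : Fin (2 ^ h) → Bool)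
  (K : ℕ) (W : ℕ → ℕ → Fin (2 ^ h) → Fin (2 ^ h) → ℕ) (N : ℕ)
  (hQ : Finite {s : St h // Bd h N s}) (w : List A), 0 < K →
  ∀ c : Cfg (vM h rel p0 facc K W N hQ : LimAut A), ReflTransGen (Step strict w.length) (init _ w) c →
    (c.state.1 = .fin true → ∃ f, facc f = true ∧ nr h rel p0 w w.length f) ∧
    (c.state.1 = .fin false → ¬ ∃ f, facc f = true ∧ nr h rel p0 w w.length f)

/-- RST: one can always go home and restart -/
def S_RST : Prop := ∀ (A : Type) (h : ℕ) (rel : A → Fin (2 ^ h) → Fin (2 ^ h) → Bool)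
  (p0 : Fin (2 ^ h)) (facc : Fin (2 ^ h) → Bool) (K : ℕ) (W : ℕ → ℕ → Fin (2 ^ h) → Fin (2 ^ h) → ℕ)
  (w : List A) (t : ℕ) (τ : ℕ → Sym (WS A)), t ≤ w.length → ∀ (s : St h) (x : ℕ),
  SOK h rel p0 facc K W w t s x → (∀ x', s ≠ .ex x') → (∀ b, s ≠ .f1 b) → (∀ b, s ≠ .fin b) →
  ∃ m : Mem, MOK h rel p0 facc K W w t m ∧
    ReflTransGen (RSV h rel p0 facc K W τ (t + 1)) (s, x) (.hm (mem0 h p0 facc m.x m.fin 0), t)

/-- LIV: every reachable configuration leads to an answer (from MVV, RST, `UX.S_MV0`, `UX.S_ALL`, `UX.S_BND`) -/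
def S_LIV : Prop := ∀ (A : Type) [Finite A] (strict : Prop) (h : ℕ)
  (rel : A → Fin (2 ^ h) → Fin (2 ^ h) → Bool) (p0 : Fin (2 ^ h)) (facc : Fin (2 ^ h) → Bool)
  (K : ℕ) (W : ℕ → ℕ → Fin (2 ^ h) → Fin (2 ^ h) → ℕ) (R N : ℕ)
  (hQ : Finite {s : St h // Bd h N s}) (w : List A), (∀ i j p q, W i j p q ≤ R) →
  K + 2 ^ h * ((2 * 2 ^ h + 1) * (R + 2)) ≤ N → WGood h rel p0 K W →
  ∀ c : Cfg (vM h rel p0 facc K W N hQ : LimAut A), ReflTransGen (Step strict w.length) (init _ w) c →
    ∃ c' : Cfg (vM h rel p0 facc K W N hQ : LimAut A), ReflTransGen (Step strict w.length) c c' ∧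
      c'.pos = w.length + 2 ∧ (c'.state.1 = .fin true ∨ c'.state.1 = .fin false)

/-- UPV: the upper bound (from `UX.S_CARD`, `UX.S_WGT`, SNV, LIV, PRB; like `UX.S_UPP`) -/
def S_UPV : Prop := ∀ (A : Type) [Finite A] (strict : Prop) (M : LimAut A) (n : ℕ), M.size ≤ n →
  ∃ (M' : LimAut A) (G : Set M'.Q), LasVegas strict M' G ∧
    M'.language strict = M.language strict ∧ M'.size + G.ncard ≤ 2 ^ (300 * n ^ 2)

end Pool.Agent.L0h32.UZ
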