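import Pool.Agent.L0h32.UX.Cost
import Pool.Agent.L0h32.UZ.Stm

/-!
# The cost of zero-error probabilistic automata
-/

set_option autoImplicit false

namespace Pool.Agent.L0h32.UZ

open Relation Filter Topology
open Pool.Agent.H630R2.LA
open Pool.Agent.TH705.LB
open Pool.Agent.N602.FT
open Pool.Agent.L0h32.UX
open Pool.Agent.L0h32.CX (withF SelfVerifying svSize svCosts V C size_withF)

/-- The least size (with the number of rejecting states) of a zero-error automaton for `L`. -/
noncomputable def lvSize {A : Type} (strict : Prop) (L : Set (List A)) : ℕ :=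
  sInf {s | ∃ (M : LimAut A) (G : Set M.Q), LasVegas strict M G ∧ M.language strict = L ∧
    M.size + G.ncard = s}

/-- The sizes `lvSize L(M)` for the 1-limited automata `M` of size at most `n`. -/
def lvCosts (strict : Prop) (n : ℕ) : Set ℕ :=
  {s | ∃ (A : Type) (_ : Finite A) (M : LimAut A), M.size ≤ n ∧
    s = lvSize strict (M.language strict)}

/-- The worst-case cost of the conversion of 1-limited automata into zero-error ones. -/
noncomputable def LV (strict : Prop) (n : ℕ) : ℕ := sSup (lvCosts strict n)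

section conv

variable {A : Type} {strict : Prop} {M : LimAut A} {G : Set M.Q}

theorem ended_of_pos {n : ℕ} : ∀ (T : ℕ) (c : Cfg M), pEnd strict M G n T c ≠ 0 →
    ∃ c', ReflTransGen (Step strict n) c c' ∧ Ended M G n c' := by
  intro T
  induction T with
  | zero =>
    intro c h
    unfold pEnd at h
    by_cases h1 : Ended M G n c
    · exact ⟨c, ReflTransGen.refl, h1⟩
    · rw [if_neg h1] at h
      exact absurd rfl h
  | succ T ih =>
    intro c h
    unfold pEnd at h
    by_cases h1 : Ended M G n c
    · exact ⟨c, ReflTransGen.refl, h1⟩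
    · rw [if_neg h1] at h
      have h2 : (∑ᶠ c' ∈ next strict M n c, pEnd strict M G n T c') ≠ 0 := by
        intro h3
        rw [h3, zero_div] at h
        exact h rfl
      have h3 : ∃ c' ∈ next strict M n c, pEnd strict M G n T c' ≠ 0 := by
        by_contra hcon
        push Not at hcon
        exact h2 (finsum_mem_eq_zero_of_forall_eq_zero hcon)
      obtain ⟨c', h4, h5⟩ := h3
      obtain ⟨c'', h6, h7⟩ := ih c' h5
      exact ⟨c'', ReflTransGen.head h4 h6, h7⟩

/-- A zero-error automaton is self-verifying. -/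
theorem LasVegas.sv (h : LasVegas strict M G) : SelfVerifying strict M G := by
  ext w
  rw [mem_withF]
  constructor
  · rintro ⟨c, h1, h2, h3⟩ ⟨c', h4, h5, h6⟩
    exact h.1 w ⟨⟨c', h4, h5, h6⟩, ⟨c, h1, h2, h3⟩⟩
  · intro hw
    have h1 := h.2 w
    have h2 : ∀ᶠ T in atTop, (1 / 2 : ℝ) < pEnd strict M G w.length T (init M w) :=
      h1.eventually (lt_mem_nhds (by norm_num))
    obtain ⟨T, hT⟩ := h2.exists
    obtain ⟨c, h3, h4, h5⟩ := ended_of_pos T (init M w) (by intro h; rw [h] at hT; norm_num at hT)
    rcases h5 with h5 | h5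
    · exact absurd ⟨c, h3, h4, h5⟩ hw
    · exact ⟨c, h3, h4, h5⟩

end conv

section final

variable (hP : S_UPV) (strict : Prop)

include hP in
theorem lvCosts_le (n s : ℕ) (hs : s ∈ lvCosts strict n) : s ≤ 2 ^ (300 * n ^ 2) := by
  obtain ⟨A, hA, M, hM, rfl⟩ := hs
  obtain ⟨M', G, h1, h2, h3⟩ := hP A strict M n hM
  exact le_trans (Nat.sInf_le ⟨M', G, h1, h2, rfl⟩) h3

include hP in
theorem bdd_lv (n : ℕ) : BddAbove (lvCosts strict n) := ⟨_, fun s hs => lvCosts_le hP strict n s hs⟩

include hP in
theorem LV_greatest (n : ℕ) (hn : 4 ≤ n) : IsGreatest (lvCosts strict n) (LV strict n) := by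
  have hne : (lvCosts strict n).Nonempty :=
    ⟨_, Empty, inferInstance, trivM, by rw [size_trivM]; exact hn, rfl⟩
  exact ⟨Nat.sSup_mem hne (bdd_lv hP strict n), fun s hs => le_csSup (bdd_lv hP strict n) hs⟩

include hP in
theorem LV_le (n : ℕ) : LV strict n ≤ 2 ^ (300 * n ^ 2) := by
  rcases (lvCosts strict n).eq_empty_or_nonempty with h | h
  · unfold LV
    rw [h]
    simp
  · exact csSup_le h fun s hs => lvCosts_le hP strict n s hs

include hP in
theorem sv_le_lv {A : Type} [Finite A] (M : LimAut A) :
    svSize strict (M.language strict) ≤ lvSize strict (M.language strict) := by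
  have hne : {s | ∃ (M' : LimAut A) (G : Set M'.Q), LasVegas strict M' G ∧
      M'.language strict = M.language strict ∧ M'.size + G.ncard = s}.Nonempty := by
    obtain ⟨M', G, h1, h2, _⟩ := hP A strict M M.size le_rfl
    exact ⟨_, M', G, h1, h2, rfl⟩
  obtain ⟨M', G, h1, h2, h3⟩ := Nat.sInf_mem hne
  have h4 : M'.size + G.ncard = lvSize strict (M.language strict) := h3
  rw [← h4]
  exact Nat.sInf_le ⟨M', G, h1.sv, h2, rfl⟩

include hP in
theorem V_le_LV (n : ℕ) : V strict n ≤ LV strict n := by
  rcases (svCosts strict n).eq_empty_or_nonempty with h | h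
  · unfold V
    rw [h]
    simp
  · refine csSup_le h ?_
    rintro s ⟨A, hA, M, hM, rfl⟩
    exact (sv_le_lv hP strict M).trans (le_csSup (bdd_lv hP strict n) ⟨A, hA, M, hM, rfl⟩)

end final

end Pool.Agent.L0h32.UZ
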